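import Pool.Agent.Helper84.OX.St

/-!
Project OX (MP_2c90c1_al, helper84), module PJZ: the other components meet `ZV`.
-/

set_option autoImplicit false

namespace Pool.Agent.Helper81.OX

open Pool.Agent.Helper96.UT hiding StTOP TopV TopE tht Bd VC EC
open Pool.Agent.Helper96.GU Pool.Agent.Helper84.OX

theorem hPJZ : StPJZ := by
  intro α r Z Ω _ X _ _ x₀ v C ρ hX hC D₂ hD
  have hfix : ∀ u ∈ C, act u Z.s = u := hC.cpx.fix
  have hL : ∀ y ∈ lf x₀ C, act y Z.s = y := lf_fix hX hfix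
  have hD2 : ∀ y ∈ D₂, act y Z.s = y := fun y hy => hL y ((hD y).1 hy).1
  have hE2 : Cpx Z (EC Z D₂ : Set ((Ω × X) × α)) D₂ := cpx_EC Z D₂ hD2
  have hEL : Cpx Z (EC Z (lf x₀ C) : Set ((Ω × X) × α)) (lf x₀ C) := cpx_EC Z _ hL
  have key : ∀ (m : ℕ) (u : Ω), ρ u = m → (u, x₀) ∈ D₂ →
      JnZ (EC Z D₂ : Set ((Ω × X) × α)) (ZV Z C x₀) (u, x₀) := by
    intro m
    induction m using Nat.strong_induction_on with
    | _ m ih =>
      intro u hu huD
      obtain ⟨h1, h2⟩ := (hD _).1 huD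
      have huC : u ∈ C := (mem_lf.1 h1).1
      rcases hC.chn u huC with rfl | ⟨u', hu', k, hρ, hk⟩
      · exact absurd (Jn.refl _ _) h2
      · by_cases hlt : x₀ < act x₀ (pre Z.c k)
        · exact ⟨(u, x₀), ⟨u', hu', k, hk, hlt⟩, Jn.refl _ _⟩
        · have heq : act x₀ (pre Z.c k) = x₀ :=
            le_antisymm (not_lt.1 hlt) (hX.low k)
          have hact : act (u', x₀) (pre Z.c k) = (u, x₀) := by
            rw [act_prod]
            simp only
            rw [hk, heq]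
          have hm : ((u', x₀) : Ω × X) ∈ lf x₀ C := mem_lf.2 ⟨hu', rfl⟩
          have hmD : ((u', x₀) : Ω × X) ∈ D₂ := by
            refine (hD _).2 ⟨hm, fun hJ => h2 (Jn.trans hJ ?_)⟩
            have h3 := Jn_cell0 Z _ (hEL.sub _ hm) k
            rw [hact] at h3
            exact h3
          obtain ⟨y, hy, hJy⟩ := ih (ρ u') (by omega) u' rfl hmD
          refine ⟨y, hy, ?_⟩
          have h3 := Jn_cell0 Z _ (hE2.sub _ hmD) k
          rw [hact] at h3
          exact Jn.trans (Jn.symm h3) hJy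
  intro x hx
  obtain ⟨y, hy, k, rfl⟩ := (mem_VC' Z D₂ hD2 x).1 hx
  have h4 := mem_lf.1 ((hD y).1 hy).1
  have h5 : y = (y.1, x₀) := by rw [← h4.2]
  obtain ⟨z, hz, hJz⟩ := key (ρ y.1) y.1 rfl (by rw [← h5]; exact hy)
  rw [← h5] at hJz
  exact ⟨z, hz, Jn.trans (Jn.symm (Jn_cell0 Z _ (hE2.sub _ hy) k)) hJz⟩

end Pool.Agent.Helper81.OX
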